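import Mathlib
import Pool.Agent.Helper838.FL7

/-!
Elementarily equivalent free lattice-ordered groups of finite rank are isomorphic.
-/

set_option autoImplicit false

namespace Pool.Agent.Results.MP_6e3a57_lc.FreeFiniteRank

open FirstOrder

/-- The family `x` of elements of the ℓ-group `G` is a free basis of `G` (universal property among
all ℓ-groups and all group homomorphisms that preserve joins and meets). -/
def IsFreeBasis {G : Type} [Group G] [Lattice G] {n : ℕ} (x : Fin n → G) : Prop :=
  ∀ (K : Type) [Group K] [Lattice K] [MulLeftMono K] [MulRightMono K] (f : Fin n → K),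
    ∃! φ : G →* K, (∀ a b : G, φ (a ⊔ b) = φ a ⊔ φ b) ∧ (∀ a b : G, φ (a ⊓ b) = φ a ⊓ φ b) ∧
      ∀ i, φ (x i) = f i

/-- The first-order language: for every arity `k` three function symbols. -/
abbrev Lang : FirstOrder.Language := FirstOrder.Language.mk (fun _ => Fin 3) (fun _ => Empty)

/-- The structure of an ℓ-group: the three `k`-ary symbols are interpreted as the product
`x₀ ⋯ x₍k-1₎` (so `1` for `k = 0`), its inverse, and `x₀ ⊔ x₁` (missing arguments read as `1`). -/
@[reducible] def str (G : Type) [Group G] [Lattice G] : Lang.Structure G :=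
  { funMap := fun {k} (i : Fin 3) (x : Fin k → G) =>
      if i = 0 then (List.ofFn x).prod
      else if i = 1 then ((List.ofFn x).prod)⁻¹
      else (List.ofFn x).getD 0 1 ⊔ (List.ofFn x).getD 1 1,
    RelMap := fun {k} (r : Empty) (_ : Fin k → G) => r.elim }

/-- A free ℓ-group on a nonempty finite set is nontrivial. -/
theorem nontrivial_of_pos {n : ℕ} (hn : 0 < n) (G : Type) [Group G] [Lattice G] (x : Fin n → G)
    (hG : IsFreeBasis x) : Nontrivial G := by
  obtain ⟨φ, ⟨_, _, h3⟩, _⟩ := hG (Multiplicative ℤ) (fun _ => Multiplicative.ofAdd 1)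
  refine ⟨x ⟨0, hn⟩, 1, fun h => ?_⟩
  have h4 := h3 ⟨0, hn⟩
  rw [h, map_one] at h4
  exact absurd h4 (by decide)

/-- A free ℓ-group on the empty set is trivial. -/
theorem subsingleton_of_zero (G : Type) [Group G] [Lattice G] [MulLeftMono G] [MulRightMono G]
    (x : Fin 0 → G) (hG : IsFreeBasis x) : Subsingleton G := by
  have h1 := (hG G x).unique (y₁ := MonoidHom.id G) (y₂ := 1)
    ⟨fun _ _ => rfl, fun _ _ => rfl, fun i => i.elim0⟩
    ⟨fun _ _ => by simp, fun _ _ => by simp, fun i => i.elim0⟩
  refine ⟨fun a b => ?_⟩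
  have ha : a = 1 := DFunLike.congr_fun h1 a
  have hb : b = 1 := DFunLike.congr_fun h1 b
  rw [ha, hb]

theorem ranks_eq {n m : ℕ} (G : Type) [Group G] [Lattice G] [MulLeftMono G] [MulRightMono G]
    (x : Fin n → G) (hG : IsFreeBasis x)
    (H : Type) [Group H] [Lattice H] [MulLeftMono H] [MulRightMono H]
    (y : Fin m → H) (hH : IsFreeBasis y)
    (hEE : @FirstOrder.Language.ElementarilyEquivalent Lang G H (str G) (str H)) :
    ¬ n < m := by
  intro hnm
  rcases Nat.eq_zero_or_pos n with rfl | hn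
  · have hG1 := subsingleton_of_zero G x hG
    have hH1 := nontrivial_of_pos hnm H y hH
    let _ := str G
    let _ := str H
    have h2 : H ⊨ FirstOrder.Language.Sentence.cardGe Lang 2 := by
      rw [FirstOrder.Language.Sentence.realize_cardGe, Nat.cast_ofNat, Cardinal.two_le_iff]
      exact exists_pair_ne H
    have h3 : G ⊨ FirstOrder.Language.Sentence.cardGe Lang 2 :=
      (FirstOrder.Language.elementarilyEquivalent_iff.1 hEE _).2 h2
    rw [FirstOrder.Language.Sentence.realize_cardGe, Nat.cast_ofNat, Cardinal.two_le_iff] at h3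
    obtain ⟨a, b, hab⟩ := h3
    exact hab (Subsingleton.elim a b)
  · exact Pool.Agent.Helper838.FL.main_lt hn hnm G x hG H y hH hEE

/-- Two free ℓ-groups of finite rank that are elementarily equivalent in the language of ℓ-groups
are isomorphic ℓ-groups. -/
theorem result :
    ∀ (n m : ℕ) (G : Type) [Group G] [Lattice G] [MulLeftMono G] [MulRightMono G] (x : Fin n → G),
      IsFreeBasis x →
      ∀ (H : Type) [Group H] [Lattice H] [MulLeftMono H] [MulRightMono H] (y : Fin m → H),
      IsFreeBasis y →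
      @FirstOrder.Language.ElementarilyEquivalent Lang G H (str G) (str H) →
      ∃ e : G ≃* H, (∀ a b : G, e (a ⊔ b) = e a ⊔ e b) ∧ ∀ a b : G, e (a ⊓ b) = e a ⊓ e b := by
  intro n m G _ _ _ _ x hG H _ _ _ _ y hH hEE
  have hsymm : @FirstOrder.Language.ElementarilyEquivalent Lang H G (str H) (str G) := by
    unfold FirstOrder.Language.ElementarilyEquivalent at hEE ⊢
    exact hEE.symm
  have hnm : n = m := le_antisymm (not_lt.1 (ranks_eq H y hH G x hG hsymm))
    (not_lt.1 (ranks_eq G x hG H y hH hEE))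
  subst hnm
  obtain ⟨φ, ⟨φs, φi, φx⟩, _⟩ := hG H y
  obtain ⟨ψ, ⟨ψs, ψi, ψx⟩, _⟩ := hH G x
  have h1 : ψ.comp φ = MonoidHom.id G := (hG G x).unique
    ⟨fun a b => by simp [φs, ψs], fun a b => by simp [φi, ψi], fun i => by simp [φx, ψx]⟩
    ⟨fun _ _ => rfl, fun _ _ => rfl, fun _ => rfl⟩
  have h2 : φ.comp ψ = MonoidHom.id H := (hH H y).unique
    ⟨fun a b => by simp [φs, ψs], fun a b => by simp [φi, ψi], fun i => by simp [φx, ψx]⟩
    ⟨fun _ _ => rfl, fun _ _ => rfl, fun _ => rfl⟩
  exact ⟨MulEquiv.ofBijective φ ⟨Function.LeftInverse.injective (DFunLike.congr_fun h1),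
    Function.RightInverse.surjective (DFunLike.congr_fun h2)⟩, φs, φi⟩

end Pool.Agent.Results.MP_6e3a57_lc.FreeFiniteRank
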